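import Mathlib

/-!
# Window iteration (numeric part of the polynomial Hammersley-Welsh bound, helper22)
-/

namespace PHWnum

open scoped ENNReal
open Finset

/-- One window: if the sum of the kernels over the window has `V`-norm at most `1/2`, then the
constant at most doubles. -/
theorem window_step {X : Type*} (Φ V : ℕ → X → ℝ≥0∞) (A : ℕ → (X → ℝ≥0∞) → X → ℝ≥0∞)
    (hmono : ∀ t (f g : X → ℝ≥0∞), (∀ x, f x ≤ g x) → ∀ x, A t f x ≤ A t g x)
    (hhom : ∀ t (c : ℝ≥0∞) (f : X → ℝ≥0∞) x, A t (fun y => c * f y) x ≤ c * A t f x)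
    (hrec : ∀ t x, Φ (t + 1) x ≤ Φ t x + A t (Φ t) x)
    (hΦ : ∀ t x, Φ t x ≤ Φ (t + 1) x)
    (hV : ∀ t x, V t x ≤ V (t + 1) x) (hVfin : ∀ t x, V t x ≠ ∞)
    (T T' : ℕ) (hT : T ≤ T')
    (hfin : ∃ c : ℝ≥0∞, c ≠ ∞ ∧ ∀ x, Φ T' x ≤ c * V T' x)
    (hwin : ∀ x, ∑ t ∈ Ico T T', A t (V T') x ≤ 2⁻¹ * V T' x)
    (c : ℝ≥0∞) (hc : ∀ x, Φ T x ≤ c * V T x) :
    ∀ x, Φ T' x ≤ 2 * c * V T' x := by
  have Vle : ∀ s t, s ≤ t → ∀ x, V s x ≤ V t x := by
    intro s t hst x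
    exact monotone_nat_of_le_succ (f := fun t => V t x) (fun t => hV t x) hst
  have Φle : ∀ s t, s ≤ t → ∀ x, Φ s x ≤ Φ t x := by
    intro s t hst x
    exact monotone_nat_of_le_succ (f := fun t => Φ t x) (fun t => hΦ t x) hst
  -- unrolled recursion
  have unroll : ∀ n, T ≤ n → n ≤ T' → ∀ x,
      Φ n x ≤ Φ T x + ∑ t ∈ Ico T n, A t (Φ T') x := by
    intro n hTn
    induction n, hTn using Nat.le_induction with
    | base => intro _ x; simp
    | succ n hn ih =>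
      intro hn' x
      have h1 := ih (by omega) x
      rw [Finset.sum_Ico_succ_top hn]
      calc Φ (n + 1) x ≤ Φ n x + A n (Φ n) x := hrec n x
        _ ≤ (Φ T x + ∑ t ∈ Ico T n, A t (Φ T') x) + A n (Φ T') x :=
            add_le_add h1 (hmono n _ _ (Φle n T' (by omega)) x)
        _ = _ := by rw [add_assoc]
  obtain ⟨c0, hc0, hc0'⟩ := hfin
  have hle : ∀ a : ℝ≥0∞, (∀ x, Φ T' x ≤ a * V T' x) →
      ∀ x, Φ T' x ≤ (c + a * 2⁻¹) * V T' x := by
    intro a h x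
    have h1 := unroll T' hT le_rfl x
    have h2 : ∑ t ∈ Ico T T', A t (Φ T') x ≤ a * ∑ t ∈ Ico T T', A t (V T') x := by
      rw [Finset.mul_sum]
      refine Finset.sum_le_sum fun t _ => ?_
      exact (hmono t _ _ h x).trans (hhom t a (V T') x)
    calc Φ T' x ≤ Φ T x + ∑ t ∈ Ico T T', A t (Φ T') x := h1
      _ ≤ c * V T' x + a * (2⁻¹ * V T' x) := by
          refine add_le_add ((hc x).trans ?_) (h2.trans ?_)
          · exact mul_le_mul' le_rfl (Vle T T' hT x)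
          · exact mul_le_mul' le_rfl (hwin x)
      _ = (c + a * 2⁻¹) * V T' x := by ring
  rcases eq_or_ne c ∞ with hct | hct
  · intro x
    rcases eq_or_ne (V T' x) 0 with h0 | h0
    · have := hc0' x; rw [h0] at this ⊢; simpa using this
    · rw [hct, ENNReal.mul_top (by norm_num), ENNReal.top_mul h0]; exact le_top
  -- iterate the contraction a ↦ c + a / 2
  have iter : ∀ k : ℕ, ∀ x, Φ T' x ≤ (2 * c + c0 * 2⁻¹ ^ k) * V T' x := by
    intro k
    induction k with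
    | zero =>
      intro x
      refine (hc0' x).trans (mul_le_mul' ?_ le_rfl)
      simp
    | succ k ih =>
      intro x
      refine (hle _ ih x).trans (mul_le_mul' (le_of_eq ?_) le_rfl)
      have h2 : (2 : ℝ≥0∞) * 2⁻¹ = 1 := ENNReal.mul_inv_cancel (by norm_num) (by norm_num)
      calc c + (2 * c + c0 * 2⁻¹ ^ k) * 2⁻¹ = c + (c * (2 * 2⁻¹) + c0 * 2⁻¹ ^ (k + 1)) := by ring
        _ = 2 * c + c0 * 2⁻¹ ^ (k + 1) := by rw [h2]; ring
  intro x
  have hlim : Filter.Tendsto (fun k : ℕ => (2 * c + c0 * 2⁻¹ ^ k) * V T' x) Filter.atTop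
      (nhds ((2 * c + 0) * V T' x)) := by
    refine ENNReal.Tendsto.mul_const (tendsto_const_nhds.add ?_) (Or.inr (hVfin T' x))
    have h1 : Filter.Tendsto (fun k : ℕ => ((2 : ℝ≥0∞)⁻¹) ^ k) Filter.atTop (nhds 0) :=
      ENNReal.tendsto_pow_atTop_nhds_zero_of_lt_one (by norm_num)
    have h2 := ENNReal.Tendsto.const_mul (a := c0) h1 (Or.inr hc0)
    rwa [mul_zero] at h2
  rw [add_zero] at hlim
  exact ge_of_tendsto hlim (Filter.Eventually.of_forall fun k => iter k x)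

/-- the window end: `T ↦ T + T / N + 1` -/
def nxt (N T : ℕ) : ℕ := T + T / N + 1

lemma lt_nxt (N T : ℕ) : T < nxt N T := by
  unfold nxt
  have : 0 ≤ T / N := Nat.zero_le _
  linarith

lemma nxt_le (N T : ℕ) : nxt N T ≤ 2 * T + 1 := by
  unfold nxt
  have : T / N ≤ T := Nat.div_le_self _ _
  linarith

/-- `2 ^ j` is polynomially bounded in the `j`-th window end -/
lemma pow_le_nxt (N T0 : ℕ) (hN : 1 ≤ N) (hT0 : 1 ≤ T0) (j : ℕ) :
    (2 : ℝ) ^ j ≤ ((nxt N)^[j] T0 : ℝ) ^ N := by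
  have hN0 : (0 : ℝ) < (N : ℝ) := by exact_mod_cast hN
  induction j with
  | zero =>
    simp only [pow_zero, Function.iterate_zero, id_eq]
    have : (1 : ℝ) ≤ (T0 : ℝ) := by exact_mod_cast hT0
    exact one_le_pow₀ this
  | succ j ih =>
    rw [Function.iterate_succ_apply']
    set T : ℕ := (nxt N)^[j] T0 with hT
    -- nxt N T ≥ T (1 + 1/N)
    have h1 : (T : ℝ) * (1 + 1 / N) ≤ (nxt N T : ℝ) := by
      have h2 : (T : ℝ) / N ≤ ((T / N : ℕ) : ℝ) + 1 := by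
        have := Nat.lt_div_mul_add (a := T) (b := N) (by omega)
        have h3 : (T : ℝ) < ((T / N : ℕ) : ℝ) * N + N := by exact_mod_cast this
        rw [div_le_iff₀ hN0]
        nlinarith
      unfold nxt
      push_cast
      have : (T : ℝ) * (1 + 1 / N) = T + T / N := by ring
      rw [this]; linarith
    have h3 : (2 : ℝ) ≤ (1 + 1 / (N : ℝ)) ^ N := by
      have := one_add_mul_le_pow (a := (1 / (N : ℝ))) (by
        have : 0 < 1 / (N : ℝ) := by positivity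
        linarith) N
      have h4 : (N : ℝ) * (1 / (N : ℝ)) = 1 := by field_simp
      linarith
    calc (2 : ℝ) ^ (j + 1) = 2 ^ j * 2 := by ring
      _ ≤ (T : ℝ) ^ N * (1 + 1 / (N : ℝ)) ^ N := by
          apply mul_le_mul ih h3 (by norm_num) (by positivity)
      _ = ((T : ℝ) * (1 + 1 / N)) ^ N := by rw [mul_pow]
      _ ≤ (nxt N T : ℝ) ^ N := pow_le_pow_left₀ (by positivity) h1 N

/-- **Window iteration.**  If all windows `[T, nxt N T)`, `T ≥ T0`, have `V`-norm at most `1/2`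
then `Φ T ≤ C T^N V` (evaluated at the end of the window containing `T`). -/
theorem window_iter {X : Type*} (Φ V : ℕ → X → ℝ≥0∞) (A : ℕ → (X → ℝ≥0∞) → X → ℝ≥0∞)
    (hmono : ∀ t (f g : X → ℝ≥0∞), (∀ x, f x ≤ g x) → ∀ x, A t f x ≤ A t g x)
    (hhom : ∀ t (c : ℝ≥0∞) (f : X → ℝ≥0∞) x, A t (fun y => c * f y) x ≤ c * A t f x)
    (hrec : ∀ t x, Φ (t + 1) x ≤ Φ t x + A t (Φ t) x)
    (hΦ : ∀ t x, Φ t x ≤ Φ (t + 1) x)
    (hV : ∀ t x, V t x ≤ V (t + 1) x) (hVfin : ∀ t x, V t x ≠ ∞)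
    (hfin : ∀ T, ∃ c : ℝ≥0∞, c ≠ ∞ ∧ ∀ x, Φ T x ≤ c * V T x)
    (N T0 : ℕ) (hN : 1 ≤ N) (hT0 : 1 ≤ T0)
    (hwin : ∀ T, T0 ≤ T → ∀ x, ∑ t ∈ Ico T (nxt N T), A t (V (nxt N T)) x ≤ 2⁻¹ * V (nxt N T) x) :
    ∃ C : ℝ≥0∞, C ≠ ∞ ∧ ∀ T, 1 ≤ T → ∀ x, Φ T x ≤ C * (T : ℝ≥0∞) ^ N * V (2 * T + T0) x := by
  obtain ⟨c0, hc0, hc0'⟩ := hfin T0
  have Vle : ∀ s t, s ≤ t → ∀ x, V s x ≤ V t x := by
    intro s t hst x
    exact monotone_nat_of_le_succ (f := fun t => V t x) (fun t => hV t x) hst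
  have Φle : ∀ s t, s ≤ t → ∀ x, Φ s x ≤ Φ t x := by
    intro s t hst x
    exact monotone_nat_of_le_succ (f := fun t => Φ t x) (fun t => hΦ t x) hst
  have hge : ∀ j, T0 + j ≤ (nxt N)^[j] T0 := by
    intro j
    induction j with
    | zero => simp
    | succ j ih =>
      rw [Function.iterate_succ_apply']
      have := lt_nxt N ((nxt N)^[j] T0)
      omega
  have hj : ∀ j, ∀ x, Φ ((nxt N)^[j] T0) x ≤ 2 ^ j * c0 * V ((nxt N)^[j] T0) x := by
    intro j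
    induction j with
    | zero => intro x; simpa using hc0' x
    | succ j ih =>
      intro x
      rw [Function.iterate_succ_apply']
      have := window_step Φ V A hmono hhom hrec hΦ hV hVfin ((nxt N)^[j] T0)
        (nxt N ((nxt N)^[j] T0)) (lt_nxt N _).le (hfin _)
        (hwin _ (by have := hge j; omega)) (2 ^ j * c0) ih x
      refine this.trans (le_of_eq ?_)
      ring
  refine ⟨2 * c0, ENNReal.mul_ne_top (by norm_num) hc0, ?_⟩
  intro T hT x
  have hT1 : (1 : ℝ≥0∞) ≤ (T : ℝ≥0∞) ^ N := by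
    have : (1 : ℝ≥0∞) ≤ (T : ℝ≥0∞) := by exact_mod_cast hT
    exact one_le_pow₀ this
  rcases le_total T T0 with h | h
  · calc Φ T x ≤ Φ T0 x := Φle T T0 h x
      _ ≤ c0 * V T0 x := hc0' x
      _ ≤ (2 * c0 * (T : ℝ≥0∞) ^ N) * V (2 * T + T0) x := by
          refine mul_le_mul' ?_ (Vle _ _ (by omega) x)
          calc c0 = 1 * c0 * 1 := by ring
            _ ≤ 2 * c0 * (T : ℝ≥0∞) ^ N :=
              mul_le_mul' (mul_le_mul' (by norm_num) le_rfl) hT1
  · -- the last window start below T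
    obtain ⟨j, hj1, hj2⟩ : ∃ j, (nxt N)^[j] T0 ≤ T ∧ T < (nxt N)^[j + 1] T0 := by
      have hex : ∃ j, T < (nxt N)^[j] T0 := ⟨T + 1, by have := hge (T + 1); omega⟩
      classical
      have hsp := Nat.find_spec hex
      have hpos : Nat.find hex ≠ 0 := by
        intro h0
        rw [h0] at hsp
        simp only [Function.iterate_zero, id_eq] at hsp
        omega
      refine ⟨Nat.find hex - 1, ?_, ?_⟩
      · have := Nat.find_min hex (m := Nat.find hex - 1) (by omega)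
        omega
      · have e : Nat.find hex - 1 + 1 = Nat.find hex := by omega
        rw [e]; exact hsp
    have h2 := hj (j + 1) x
    have h3 : (nxt N)^[j + 1] T0 ≤ 2 * T + T0 := by
      rw [Function.iterate_succ_apply']
      have := nxt_le N ((nxt N)^[j] T0)
      omega
    have h4 : (2 : ℝ≥0∞) ^ j ≤ (T : ℝ≥0∞) ^ N := by
      have h5 := pow_le_nxt N T0 hN hT0 j
      have h6 : ((2 ^ j : ℕ) : ℝ) ≤ (((nxt N)^[j] T0) ^ N : ℕ) := by push_cast; exact h5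
      have h7 : 2 ^ j ≤ ((nxt N)^[j] T0) ^ N := by exact_mod_cast h6
      have h8 : 2 ^ j ≤ T ^ N := h7.trans (Nat.pow_le_pow_left hj1 N)
      exact_mod_cast h8
    calc Φ T x ≤ Φ ((nxt N)^[j + 1] T0) x := Φle _ _ hj2.le x
      _ ≤ 2 ^ (j + 1) * c0 * V ((nxt N)^[j + 1] T0) x := h2
      _ ≤ (2 * c0 * (T : ℝ≥0∞) ^ N) * V (2 * T + T0) x := by
          refine mul_le_mul' ?_ (Vle _ _ h3 x)
          calc (2 : ℝ≥0∞) ^ (j + 1) * c0 = 2 * c0 * 2 ^ j := by ring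
            _ ≤ 2 * c0 * (T : ℝ≥0∞) ^ N := mul_le_mul' le_rfl h4

end PHWnum
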