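import Pool.Agent.PHWnum.Reg
import Pool.Agent.PHWnum.Iter

/-!
# The kernel of the HW recursion and its norm over a window (helper22)
-/

namespace PHWnum

open Finset

noncomputable section

/-- numeric facts on the irreducible heights -/
structure Kap (u κ : ℕ → ℝ) : Prop where
  nonneg : ∀ r, 0 ≤ κ r
  tail : ∀ R n, ∑ r ∈ Ico (R + 1) n, κ r ≤ 1 / US u R
  mean : ∀ R, ∑ r ∈ range (R + 1), (r : ℝ) * κ r ≤ (2 * (R : ℝ) + 1) / US u R

/-- the condition on a decomposition `t = a + r + b` (in-end, piece covering the middle, out-end) -/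
def Good (t a r b : ℕ) : Prop := a + r + b = t ∧ 1 ≤ r ∧ 2 * a ≤ t ∧ t < 2 * (a + r)

instance (t a r b : ℕ) : Decidable (Good t a r b) := by unfold Good; infer_instance

/-- the kernel: `s` = out-end of the previous strand -/
def AA (u κ : ℕ → ℝ) (δ : ℝ) (t : ℕ) (f : ℕ → ℝ) (s : ℕ) : ℝ :=
  ∑ a ∈ range (t + 1), ∑ r ∈ range (t + 1), ∑ b ∈ range (t + 1),
    if Good t a r b then κ r * (u a * fold u δ s a) * (u b * f b) else 0

variable {u κ : ℕ → ℝ} {e : ℝ}

lemma US_quarter (h : Reg u e) (T T' : ℕ) (hT' : T' ≤ 2 * T + 1) :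
    US u T' ≤ 8 * US u (T / 4) := by
  have h1 := h.US_double T T' hT'
  have h2 := h.US_double (T / 2) T (by omega)
  have h3 := h.US_double (T / 4) (T / 2) (by omega)
  linarith

lemma quarter_le (T T' : ℕ) (hT' : T' ≤ 2 * T + 1) :
    ((T' : ℝ) + 1) ≤ 8 * (((T / 4 : ℕ) : ℝ) + 1) := by
  have : T' + 1 ≤ 8 * (T / 4 + 1) := by omega
  exact_mod_cast this

lemma fold_le (h : Reg u e) (δ : ℝ) (hδ0 : 0 < δ) (hδ1 : δ ≤ 1) (T T' s a : ℕ)
    (hT' : T' ≤ 2 * T + 1) (ha : T / 4 ≤ a) (ha' : a ≤ T') :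
    US u T' * fold u δ s a ≤ 8 * VV u δ T' s := by
  have hUT' := h.US_pos T'
  have hq := US_quarter h T T' hT'
  have hq1 := quarter_le T T' hT'
  have hV1 := h.one_le_VV δ T' s
  unfold fold DD
  rcases le_or_gt s a with hs | hs
  · rw [min_eq_left hs, max_eq_right hs]
    have hsT : s ≤ T' := hs.trans ha'
    have hUs := h.US_pos s
    have e1 : VV u δ T' s = 1 + US u T' / US u s * (((s : ℝ) + 1) ^ δ / ((T' : ℝ) + 1) ^ δ) := by
      unfold VV; rw [min_eq_left hsT]
    have h2 : ((T' : ℝ) + 1) ^ δ ≤ 8 * ((a : ℝ) + 1) ^ δ := by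
      have h3 : ((T' : ℝ) + 1) ≤ 8 * ((a : ℝ) + 1) := by
        have : (((T / 4 : ℕ) : ℝ)) ≤ (a : ℝ) := by exact_mod_cast ha
        linarith
      calc ((T' : ℝ) + 1) ^ δ ≤ (8 * ((a : ℝ) + 1)) ^ δ :=
            Real.rpow_le_rpow (by positivity) h3 hδ0.le
        _ = 8 ^ δ * ((a : ℝ) + 1) ^ δ := Real.mul_rpow (by norm_num) (by positivity)
        _ ≤ 8 * ((a : ℝ) + 1) ^ δ := by
            apply mul_le_mul_of_nonneg_right _ (by positivity)
            calc (8 : ℝ) ^ δ ≤ 8 ^ (1 : ℝ) :=
                  Real.rpow_le_rpow_of_exponent_le (by norm_num) hδ1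
              _ = 8 := Real.rpow_one 8
    have hT1 : (0 : ℝ) < ((T' : ℝ) + 1) ^ δ := by positivity
    have ha1 : (0 : ℝ) < ((a : ℝ) + 1) ^ δ := by positivity
    have hs1 : (0 : ℝ) < ((s : ℝ) + 1) ^ δ := by positivity
    have h4 : 1 / ((a : ℝ) + 1) ^ δ ≤ 8 / ((T' : ℝ) + 1) ^ δ := by
      rw [div_le_div_iff₀ ha1 hT1]; linarith
    calc US u T' * (((s : ℝ) + 1) ^ δ / ((a : ℝ) + 1) ^ δ / US u s)
        = (US u T' / US u s * ((s : ℝ) + 1) ^ δ) * (1 / ((a : ℝ) + 1) ^ δ) := by ring
      _ ≤ (US u T' / US u s * ((s : ℝ) + 1) ^ δ) * (8 / ((T' : ℝ) + 1) ^ δ) :=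
          mul_le_mul_of_nonneg_left h4 (by positivity)
      _ = 8 * (US u T' / US u s * (((s : ℝ) + 1) ^ δ / ((T' : ℝ) + 1) ^ δ)) := by ring
      _ ≤ 8 * VV u δ T' s := by rw [e1]; linarith
  · rw [min_eq_right hs.le, max_eq_left hs.le]
    have hUa := h.US_pos a
    have hUq := h.US_pos (T / 4)
    have h2 : US u (T / 4) ≤ US u a := h.US_mono ha
    have h3 : ((a : ℝ) + 1) ^ δ / ((s : ℝ) + 1) ^ δ ≤ 1 := by
      rw [div_le_one (by positivity)]
      apply Real.rpow_le_rpow (by positivity) _ hδ0.le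
      have : (a : ℝ) ≤ (s : ℝ) := by exact_mod_cast hs.le
      linarith
    calc US u T' * (((a : ℝ) + 1) ^ δ / ((s : ℝ) + 1) ^ δ / US u a)
        ≤ US u T' * (1 / US u a) := by
          apply mul_le_mul_of_nonneg_left _ hUT'.le
          exact div_le_div_of_nonneg_right h3 hUa.le
      _ = US u T' / US u a := by ring
      _ ≤ 8 := by
          rw [div_le_iff₀ hUa]; linarith
      _ ≤ 8 * VV u δ T' s := by linarith

lemma VV_le_nine (h : Reg u e) (δ : ℝ) (hδ0 : 0 < δ) (T T' b : ℕ)
    (hT' : T' ≤ 2 * T + 1) (hTT' : T ≤ T') (hb : T / 4 ≤ b) : VV u δ T' b ≤ 9 := by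
  unfold VV
  have hmin : T / 4 ≤ min b T' := le_min hb (by omega)
  have hU := h.US_pos (min b T')
  have hUq := h.US_mono hmin
  have hq := US_quarter h T T' hT'
  have hUT' := h.US_pos T'
  have h1 : US u T' / US u (min b T') ≤ 8 := by rw [div_le_iff₀ hU]; linarith
  have h2 : (((min b T' : ℕ) : ℝ) + 1) ^ δ / ((T' : ℝ) + 1) ^ δ ≤ 1 := by
    rw [div_le_one (by positivity)]
    apply Real.rpow_le_rpow (by positivity) _ hδ0.le
    have : ((min b T' : ℕ) : ℝ) ≤ (T' : ℝ) := by exact_mod_cast min_le_right b T'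
    linarith
  have h3 : US u T' / US u (min b T') * ((((min b T' : ℕ) : ℝ) + 1) ^ δ / ((T' : ℝ) + 1) ^ δ)
      ≤ 8 * 1 := mul_le_mul h1 h2 (by positivity) (by norm_num)
  linarith

/-- **Norm of the kernel over a window.** -/
theorem kernel_window (h : Reg u e) (hκ : Kap u κ) (δ : ℝ) (hδ0 : 0 < δ) (hδ : δ ≤ e / 4)
    (T L s : ℕ) (hL : 1 ≤ L) (hLT : L ≤ T + 1) :
    ∑ t ∈ Ico T (T + L), AA u κ δ t (VV u δ (T + L)) s
      ≤ (8 * ((1 / δ) * (1 / (e / 2 - δ))) * (1 + 1 / δ) + 36864)
        * ((L : ℝ) / ((T : ℝ) + L + 1)) ^ δ * VV u δ (T + L) s := by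
  have he0 := h.e0
  have he1 := h.e1
  have hδ1 : δ ≤ 1 := by linarith
  have hed : 0 < e / 2 - δ := by linarith
  set T' : ℕ := T + L with hT'
  have hT2 : T' ≤ 2 * T + 1 := by omega
  set V := VV u δ T' with hV
  set q : ℕ := T / 4 with hq
  have hUT' := h.US_pos T'
  have hUq := h.US_pos q
  have hVs := h.one_le_VV δ T' s
  have hVnn : ∀ b, 0 ≤ V b := fun b => le_trans zero_le_one (h.one_le_VV δ T' b)
  have hf : ∀ a, 0 ≤ fold u δ s a := h.fold_nonneg δ s
  have hun : ∀ a, 0 ≤ u a := h.nonneg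
  -- the term
  set G : ℕ → ℕ → ℕ → ℝ := fun a r b => κ r * (u a * fold u δ s a) * (u b * V b) with hG
  have hGnn : ∀ a r b, 0 ≤ G a r b := fun a r b =>
    mul_nonneg (mul_nonneg (hκ.nonneg r) (mul_nonneg (hun a) (hf a))) (mul_nonneg (hun b) (hVnn b))
  -- split into giants and small pieces
  have hsplit : ∀ t ∈ Ico T T', AA u κ δ t V s
      ≤ (∑ a ∈ range T', ∑ r ∈ Ico (q + 1) T', ∑ b ∈ range T',
          if a + r + b = t then G a r b else 0)
        + ∑ r ∈ range (q + 1), ∑ a ∈ range T', ∑ b ∈ range T',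
          if Good t a r b then G a r b else 0 := by
    intro t ht
    have ht' := (mem_Ico.1 ht).2
    have hext : AA u κ δ t V s ≤ ∑ a ∈ range T', ∑ r ∈ range T', ∑ b ∈ range T',
        if Good t a r b then G a r b else 0 := by
      unfold AA
      have hsub : range (t + 1) ⊆ range T' := by
        intro x hx; have := mem_range.1 hx; exact mem_range.2 (by omega)
      have nn : ∀ a r b, 0 ≤ (if Good t a r b then G a r b else 0) := by
        intro a r b; split_ifs
        · exact hGnn a r b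
        · exact le_rfl
      refine (sum_le_sum_of_subset_of_nonneg hsub fun a _ _ =>
        sum_nonneg fun r _ => sum_nonneg fun b _ => nn a r b).trans ?_
      refine sum_le_sum fun a _ => ?_
      refine (sum_le_sum_of_subset_of_nonneg hsub fun r _ _ => sum_nonneg fun b _ => nn a r b).trans ?_
      refine sum_le_sum fun r _ => ?_
      exact sum_le_sum_of_subset_of_nonneg hsub fun b _ _ => nn a r b
    refine hext.trans ?_
    have hT'q : q + 1 ≤ T' := by omega
    have hr : ∀ a, ∑ r ∈ range T', ∑ b ∈ range T', (if Good t a r b then G a r b else 0)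
        = (∑ r ∈ range (q + 1), ∑ b ∈ range T', (if Good t a r b then G a r b else 0))
          + ∑ r ∈ Ico (q + 1) T', ∑ b ∈ range T', (if Good t a r b then G a r b else 0) := by
      intro a
      rw [range_eq_Ico, range_eq_Ico]
      exact (sum_Ico_consecutive _ (Nat.zero_le _) hT'q).symm
    rw [sum_congr rfl fun a _ => hr a, sum_add_distrib, add_comm]
    refine add_le_add ?_ (le_of_eq sum_comm)
    refine sum_le_sum fun a _ => sum_le_sum fun r _ => sum_le_sum fun b _ => ?_
    by_cases hg : Good t a r b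
    · rw [if_pos hg, if_pos hg.1]
    · rw [if_neg hg]
      split_ifs
      · exact hGnn a r b
      · exact le_rfl
  -- giants
  have hgiant : ∑ t ∈ Ico T T', ∑ a ∈ range T', ∑ r ∈ Ico (q + 1) T', ∑ b ∈ range T',
      (if a + r + b = t then G a r b else 0)
      ≤ 8 * ((1 / δ) * (1 / (e / 2 - δ))) * (1 + 1 / δ)
        * ((L : ℝ) / ((T : ℝ) + L + 1)) ^ δ * V s := by
    have hcast : ((T' : ℝ) + 1) = (T : ℝ) + L + 1 := by rw [hT']; push_cast; ring
    -- swap the sums
    have h1 : ∑ t ∈ Ico T T', ∑ a ∈ range T', ∑ r ∈ Ico (q + 1) T', ∑ b ∈ range T',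
        (if a + r + b = t then G a r b else 0)
        = ∑ a ∈ range T', ∑ r ∈ Ico (q + 1) T', ∑ b ∈ range T', ∑ t ∈ Ico T T',
          (if a + r + b = t then G a r b else 0) := by
      rw [sum_comm]
      refine sum_congr rfl fun a _ => ?_
      rw [sum_comm]
      refine sum_congr rfl fun r _ => ?_
      rw [sum_comm]
    rw [h1]
    -- inner window
    have h2 : ∀ a r, ∑ b ∈ range T', ∑ t ∈ Ico T T', (if a + r + b = t then G a r b else 0)
        ≤ κ r * (u a * fold u δ s a)
          * ((1 + 1 / δ) * (US u T' * ((L : ℝ) / ((T' : ℝ) + 1)) ^ δ)) := by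
      intro a r
      have h3 : ∀ b ∈ range T', ∑ t ∈ Ico T T', (if a + r + b = t then G a r b else 0)
          = if b ∈ Ico (T - (a + r)) (T - (a + r) + L) ∧ (T ≤ a + r + b ∧ a + r + b < T')
            then G a r b else 0 := by
        intro b _
        rw [sum_ite_eq]
        by_cases hb : a + r + b ∈ Ico T T'
        · have hb' := mem_Ico.1 hb
          rw [if_pos hb, if_pos]
          exact ⟨mem_Ico.2 (by omega), hb'⟩
        · rw [if_neg hb, if_neg]
          rintro ⟨_, h4⟩
          exact hb (mem_Ico.2 h4)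
      rw [sum_congr rfl h3]
      have hwin : T - (a + r) + L ≤ T' + 1 := by omega
      calc ∑ b ∈ range T', (if b ∈ Ico (T - (a + r)) (T - (a + r) + L)
            ∧ (T ≤ a + r + b ∧ a + r + b < T') then G a r b else 0)
          ≤ ∑ b ∈ range T', (if b ∈ Ico (T - (a + r)) (T - (a + r) + L) then G a r b else 0) := by
            refine sum_le_sum fun b _ => ?_
            split_ifs with h5 h6 h6
            · exact le_rfl
            · exact absurd h5.1 h6
            · exact hGnn a r b
            · exact le_rfl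
        _ ≤ ∑ b ∈ Ico (T - (a + r)) (T - (a + r) + L), G a r b := by
            rw [← sum_filter]
            refine sum_le_sum_of_subset_of_nonneg ?_ fun b _ _ => hGnn a r b
            intro b hb
            exact (mem_filter.1 hb).2
        _ = κ r * (u a * fold u δ s a)
            * ∑ b ∈ Ico (T - (a + r)) (T - (a + r) + L), u b * V b := by
            rw [mul_sum]
        _ ≤ κ r * (u a * fold u δ s a)
          * ((1 + 1 / δ) * (US u T' * ((L : ℝ) / ((T' : ℝ) + 1)) ^ δ)) :=
            mul_le_mul_of_nonneg_left (h.window_sum δ hδ0 hδ T' _ L hL hwin)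
              (mul_nonneg (hκ.nonneg r) (mul_nonneg (hun a) (hf a)))
    set W : ℝ := (1 + 1 / δ) * (US u T' * ((L : ℝ) / ((T' : ℝ) + 1)) ^ δ) with hW
    have hW0 : 0 ≤ W := by positivity
    have h4 : ∑ a ∈ range T', ∑ r ∈ Ico (q + 1) T', ∑ b ∈ range T', ∑ t ∈ Ico T T',
          (if a + r + b = t then G a r b else 0)
        ≤ (∑ a ∈ range T', u a * fold u δ s a) * (∑ r ∈ Ico (q + 1) T', κ r) * W := by
      calc _ ≤ ∑ a ∈ range T', ∑ r ∈ Ico (q + 1) T', κ r * (u a * fold u δ s a) * W :=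
            sum_le_sum fun a _ => sum_le_sum fun r _ => h2 a r
        _ = _ := by
            rw [sum_mul_sum, sum_mul]
            refine sum_congr rfl fun a _ => ?_
            rw [sum_mul]
            refine sum_congr rfl fun r _ => ?_
            ring
    have h5 : ∑ a ∈ range T', u a * fold u δ s a ≤ (1 / δ) * (1 / (e / 2 - δ)) * V s := by
      refine le_trans ?_ (h.fold_sum δ hδ0 hδ T' s)
      exact sum_le_sum_of_subset_of_nonneg (range_subset_range.2 (by omega))
        fun a _ _ => mul_nonneg (hun a) (hf a)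
    have h6 : ∑ r ∈ Ico (q + 1) T', κ r ≤ 8 / US u T' := by
      refine (hκ.tail q T').trans ?_
      rw [div_le_div_iff₀ hUq hUT']
      have := US_quarter h T T' hT2
      linarith
    refine h4.trans ?_
    have hC1 : 0 ≤ (1 / δ) * (1 / (e / 2 - δ)) := by positivity
    calc (∑ a ∈ range T', u a * fold u δ s a) * (∑ r ∈ Ico (q + 1) T', κ r) * W
        ≤ ((1 / δ) * (1 / (e / 2 - δ)) * V s) * (8 / US u T') * W := by
          apply mul_le_mul_of_nonneg_right _ hW0
          exact mul_le_mul h5 h6 (sum_nonneg fun r _ => hκ.nonneg r)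
            (mul_nonneg hC1 (hVnn s))
      _ = _ := by
          rw [hW, ← hcast]
          field_simp
  -- small pieces
  have hsmall : ∑ t ∈ Ico T T', ∑ r ∈ range (q + 1), ∑ a ∈ range T', ∑ b ∈ range T',
      (if Good t a r b then G a r b else 0)
      ≤ 36864 * ((L : ℝ) / ((T : ℝ) + L + 1)) ^ δ * V s := by
    have hcast : ((T' : ℝ) + 1) = (T : ℝ) + L + 1 := by rw [hT']; push_cast; ring
    set X : ℝ := u q * u q * (8 * V s / US u T') * 9 with hX
    have hX0 : 0 ≤ X := by
      have := hun q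
      have := hVnn s
      positivity
    have hterm : ∀ t ∈ Ico T T', ∀ r ∈ range (q + 1), ∀ a ∈ range T', ∀ b ∈ range T',
        (if Good t a r b then G a r b else 0)
          ≤ if b = t - r - a ∧ (a ∈ Ico (t / 2 + 1 - r) (t / 2 + 1)) then κ r * X else 0 := by
      intro t ht r hr a ha b hb
      have ht1 := (mem_Ico.1 ht).1
      have ht2 := (mem_Ico.1 ht).2
      have hr1 := mem_range.1 hr
      have hXr : 0 ≤ κ r * X := mul_nonneg (hκ.nonneg r) hX0
      by_cases hg : Good t a r b
      · obtain ⟨g1, g2, g3, g4⟩ := hg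
        rw [if_pos ⟨g1, g2, g3, g4⟩, if_pos ⟨by omega, mem_Ico.2 (by omega)⟩]
        have haq : T / 4 ≤ a := by omega
        have hbq : T / 4 ≤ b := by omega
        have h1 : u a ≤ u q := h.anti haq
        have h2 : u b ≤ u q := h.anti hbq
        have h3 : fold u δ s a ≤ 8 * V s / US u T' := by
          rw [le_div_iff₀ hUT']
          have := fold_le h δ hδ0 hδ1 T T' s a hT2 haq (by omega)
          linarith
        have h4 : V b ≤ 9 := VV_le_nine h δ hδ0 T T' b hT2 (by omega) hbq
        have hq0 := hun q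
        have h8 : 0 ≤ 8 * V s / US u T' := le_trans (hf a) h3
        calc G a r b = κ r * ((u a * fold u δ s a) * (u b * V b)) := by rw [hG]; ring
          _ ≤ κ r * ((u q * (8 * V s / US u T')) * (u q * 9)) := by
              apply mul_le_mul_of_nonneg_left _ (hκ.nonneg r)
              apply mul_le_mul (mul_le_mul h1 h3 (hf a) hq0) (mul_le_mul h2 h4 (hVnn b) hq0)
                (mul_nonneg (hun b) (hVnn b)) (mul_nonneg hq0 h8)
          _ = κ r * X := by rw [hX]; ring
      · rw [if_neg hg]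
        split_ifs
        · exact hXr
        · exact le_rfl
    have hcount : ∀ t ∈ Ico T T', ∀ r ∈ range (q + 1),
        ∑ a ∈ range T', ∑ b ∈ range T', (if Good t a r b then G a r b else 0)
          ≤ (r : ℝ) * κ r * X := by
      intro t ht r hr
      have hXr : 0 ≤ κ r * X := mul_nonneg (hκ.nonneg r) hX0
      calc _ ≤ ∑ a ∈ range T', ∑ b ∈ range T',
            (if b = t - r - a ∧ (a ∈ Ico (t / 2 + 1 - r) (t / 2 + 1)) then κ r * X else 0) :=
            sum_le_sum fun a ha => sum_le_sum fun b hb => hterm t ht r hr a ha b hb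
        _ ≤ ∑ a ∈ range T', (if a ∈ Ico (t / 2 + 1 - r) (t / 2 + 1) then κ r * X else 0) := by
            refine sum_le_sum fun a _ => ?_
            by_cases hm : a ∈ Ico (t / 2 + 1 - r) (t / 2 + 1)
            · simp only [hm, and_true, if_true]
              rw [sum_ite_eq']
              split_ifs
              · exact le_rfl
              · exact hXr
            · simp [hm]
        _ ≤ ∑ a ∈ Ico (t / 2 + 1 - r) (t / 2 + 1), κ r * X := by
            rw [← sum_filter]
            refine sum_le_sum_of_subset_of_nonneg ?_ fun a _ _ => hXr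
            intro a ha
            exact (mem_filter.1 ha).2
        _ ≤ (r : ℝ) * κ r * X := by
            rw [sum_const, Nat.card_Ico, nsmul_eq_mul, mul_assoc]
            apply mul_le_mul_of_nonneg_right _ hXr
            have : t / 2 + 1 - (t / 2 + 1 - r) ≤ r := by omega
            exact_mod_cast this
    have hsum : ∑ t ∈ Ico T T', ∑ r ∈ range (q + 1), ∑ a ∈ range T', ∑ b ∈ range T',
        (if Good t a r b then G a r b else 0) ≤ (L : ℝ) * (((2 * (q : ℝ) + 1) / US u q) * X) := by
      calc _ ≤ ∑ t ∈ Ico T T', ∑ r ∈ range (q + 1), (r : ℝ) * κ r * X :=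
            sum_le_sum fun t ht => sum_le_sum fun r hr => hcount t ht r hr
        _ = (L : ℝ) * ((∑ r ∈ range (q + 1), (r : ℝ) * κ r) * X) := by
            rw [sum_const, Nat.card_Ico, nsmul_eq_mul, sum_mul]
            congr 2
            rw [hT']; omega
        _ ≤ (L : ℝ) * (((2 * (q : ℝ) + 1) / US u q) * X) := by
            apply mul_le_mul_of_nonneg_left _ (by positivity)
            exact mul_le_mul_of_nonneg_right (hκ.mean q) hX0
    refine hsum.trans ?_
    -- arithmetic
    have hq1 := quarter_le T T' hT2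
    rw [← hq] at hq1
    have hqp : (0 : ℝ) < (q : ℝ) + 1 := by positivity
    have hTp : (0 : ℝ) < (T' : ℝ) + 1 := by positivity
    have huq : u q ≤ US u q / ((q : ℝ) + 1) := h.u_le_div q
    have huq2 : u q * u q ≤ (US u q / ((q : ℝ) + 1)) * (8 * US u T' / ((T' : ℝ) + 1)) := by
      have h2 : u q ≤ 8 * US u T' / ((T' : ℝ) + 1) := by
        refine huq.trans ?_
        rw [div_le_div_iff₀ hqp hTp]
        have h3 : US u q ≤ US u T' := h.US_mono (by omega)
        have hU0 := hUq.le
        calc US u q * ((T' : ℝ) + 1) ≤ US u T' * (8 * ((q : ℝ) + 1)) :=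
              mul_le_mul h3 hq1 hTp.le hUT'.le
          _ = 8 * US u T' * ((q : ℝ) + 1) := by ring
      exact mul_le_mul huq h2 (hun q) (by positivity)
    have hX1 : X ≤ ((US u q / ((q : ℝ) + 1)) * (8 * US u T' / ((T' : ℝ) + 1)))
        * (8 * V s / US u T') * 9 := by
      rw [hX]
      have := hVnn s
      gcongr
    have hfin : (L : ℝ) * (((2 * (q : ℝ) + 1) / US u q) * X)
        ≤ 1152 * ((L : ℝ) / ((T' : ℝ) + 1)) * V s := by
      have h1 : (2 * (q : ℝ) + 1) / US u q ≤ 2 * ((q : ℝ) + 1) / US u q := by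
        apply div_le_div_of_nonneg_right _ hUq.le
        linarith
      calc (L : ℝ) * (((2 * (q : ℝ) + 1) / US u q) * X)
          ≤ (L : ℝ) * ((2 * ((q : ℝ) + 1) / US u q)
            * (((US u q / ((q : ℝ) + 1)) * (8 * US u T' / ((T' : ℝ) + 1)))
              * (8 * V s / US u T') * 9)) := by
            apply mul_le_mul_of_nonneg_left _ (by positivity)
            exact mul_le_mul h1 hX1 hX0 (by positivity)
        _ = 1152 * ((L : ℝ) / ((T' : ℝ) + 1)) * V s := by
            field_simp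
            ring
    refine hfin.trans ?_
    rw [hcast]
    have hx0 : 0 < (L : ℝ) / ((T : ℝ) + L + 1) := by
      have : (0 : ℝ) < (L : ℝ) := by exact_mod_cast hL
      positivity
    have hx1 : (L : ℝ) / ((T : ℝ) + L + 1) ≤ 1 := by
      rw [div_le_one (by positivity)]
      have : (0 : ℝ) ≤ (T : ℝ) := by positivity
      linarith
    have h9 : (L : ℝ) / ((T : ℝ) + L + 1) ≤ ((L : ℝ) / ((T : ℝ) + L + 1)) ^ δ := by
      calc (L : ℝ) / ((T : ℝ) + L + 1) = ((L : ℝ) / ((T : ℝ) + L + 1)) ^ (1 : ℝ) :=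
            (Real.rpow_one _).symm
        _ ≤ ((L : ℝ) / ((T : ℝ) + L + 1)) ^ δ :=
            Real.rpow_le_rpow_of_exponent_ge hx0 hx1 hδ1
    apply mul_le_mul_of_nonneg_right _ (hVnn s)
    have : (0 : ℝ) ≤ ((L : ℝ) / ((T : ℝ) + L + 1)) ^ δ := by positivity
    linarith
  -- conclusion
  calc ∑ t ∈ Ico T T', AA u κ δ t V s
      ≤ ∑ t ∈ Ico T T', ((∑ a ∈ range T', ∑ r ∈ Ico (q + 1) T', ∑ b ∈ range T',
          if a + r + b = t then G a r b else 0)
        + ∑ r ∈ range (q + 1), ∑ a ∈ range T', ∑ b ∈ range T',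
          if Good t a r b then G a r b else 0) := sum_le_sum hsplit
    _ = _ := sum_add_distrib
    _ ≤ _ := add_le_add hgiant hsmall
    _ = _ := by ring

end

end PHWnum
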