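import Mathlib

/-!
# Regular renewal sequences: growth, fold sums, window sums (helper22)
-/

namespace PHWnum

open Finset

noncomputable section

/-- `U n = u 0 + ... + u n`. -/
def US (u : ℕ → ℝ) (n : ℕ) : ℝ := ∑ j ∈ range (n + 1), u j

/-- A nonincreasing sequence with `u 0 = 1` and `e * U n ≤ (n + 1) * u n`. -/
structure Reg (u : ℕ → ℝ) (e : ℝ) : Prop where
  u0 : u 0 = 1
  anti : Antitone u
  pos : ∀ n, 0 < u n
  e0 : 0 < e
  e1 : e ≤ 1
  low : ∀ n, e * US u n ≤ ((n : ℝ) + 1) * u n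

/-- `∑_{a < n} (a+1)^{s-1} ≤ n^s / s`. -/
lemma sum_rpow_le (s : ℝ) (hs0 : 0 < s) (hs1 : s ≤ 1) (n : ℕ) :
    ∑ a ∈ range n, ((a : ℝ) + 1) ^ (s - 1) ≤ (n : ℝ) ^ s / s := by
  induction n with
  | zero => simp; positivity
  | succ n ih =>
    rw [sum_range_succ]
    have hn : (0 : ℝ) < (n : ℝ) + 1 := by positivity
    have h1 : (1 + (-(1 / ((n : ℝ) + 1)))) ^ s ≤ 1 + s * (-(1 / ((n : ℝ) + 1))) := by
      apply rpow_one_add_le_one_add_mul_self _ hs0.le hs1
      have : 1 / ((n : ℝ) + 1) ≤ 1 := by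
        rw [div_le_one hn]; linarith [(Nat.cast_nonneg n : (0 : ℝ) ≤ n)]
      linarith
    have h2 : (1 + (-(1 / ((n : ℝ) + 1)))) = (n : ℝ) / ((n : ℝ) + 1) := by field_simp; ring
    rw [h2, Real.div_rpow (Nat.cast_nonneg n) hn.le] at h1
    have h3 : (0 : ℝ) < ((n : ℝ) + 1) ^ s := Real.rpow_pos_of_pos hn s
    have h4 : (n : ℝ) ^ s ≤ ((n : ℝ) + 1) ^ s - s * ((n : ℝ) + 1) ^ (s - 1) := by
      rw [div_le_iff₀ h3] at h1
      have h5 : ((n : ℝ) + 1) ^ (s - 1) = ((n : ℝ) + 1) ^ s / ((n : ℝ) + 1) := by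
        rw [Real.rpow_sub hn, Real.rpow_one]
      rw [h5]
      calc (n : ℝ) ^ s ≤ (1 + s * (-(1 / ((n : ℝ) + 1)))) * ((n : ℝ) + 1) ^ s := h1
        _ = _ := by field_simp; ring
    have h6 : (n : ℝ) ^ s / s ≤ ((n : ℝ) + 1) ^ s / s - ((n : ℝ) + 1) ^ (s - 1) := by
      rw [div_le_iff₀ hs0]
      have : (((n : ℝ) + 1) ^ s / s - ((n : ℝ) + 1) ^ (s - 1)) * s
          = ((n : ℝ) + 1) ^ s - s * ((n : ℝ) + 1) ^ (s - 1) := by field_simp
      rw [this]; exact h4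
    push_cast
    linarith

/-- sum over a window of a nonincreasing sequence -/
lemma window_anti (f : ℕ → ℝ) (hf : Antitone f) (a L : ℕ) :
    ∑ b ∈ Ico a (a + L), f b ≤ ∑ b ∈ range L, f b := by
  rw [sum_Ico_eq_sum_range]
  have : a + L - a = L := by omega
  rw [this]
  exact sum_le_sum fun i _ => hf (by omega)

lemma window_rpow (s : ℝ) (hs0 : 0 < s) (hs1 : s ≤ 1) (a L : ℕ) :
    ∑ b ∈ Ico a (a + L), ((b : ℝ) + 1) ^ (s - 1) ≤ (L : ℝ) ^ s / s := by
  refine (window_anti (fun b : ℕ => ((b : ℝ) + 1) ^ (s - 1)) ?_ a L).trans (sum_rpow_le s hs0 hs1 L)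
  intro m n hmn
  have h1 : (m : ℝ) ≤ n := by exact_mod_cast hmn
  exact Real.rpow_le_rpow_of_nonpos (by positivity) (by linarith) (by linarith)

namespace Reg

variable {u : ℕ → ℝ} {e : ℝ} (h : Reg u e)
include h

lemma nonneg (n : ℕ) : 0 ≤ u n := (h.pos n).le

lemma le_one (n : ℕ) : u n ≤ 1 := by rw [← h.u0]; exact h.anti (Nat.zero_le n)

lemma US_succ (n : ℕ) : US u (n + 1) = US u n + u (n + 1) := by
  have _ := h.u0
  unfold US; rw [sum_range_succ]

lemma US_mono : Monotone (US u) :=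
  monotone_nat_of_le_succ fun n => by rw [h.US_succ]; linarith [h.pos (n + 1)]

lemma one_le_US (n : ℕ) : 1 ≤ US u n := by
  have : US u 0 ≤ US u n := h.US_mono (Nat.zero_le n)
  unfold US at this ⊢
  simpa [h.u0] using this

lemma US_pos (n : ℕ) : 0 < US u n := lt_of_lt_of_le one_pos (h.one_le_US n)

lemma US_le (n : ℕ) : US u n ≤ (n : ℝ) + 1 := by
  unfold US
  calc ∑ j ∈ range (n + 1), u j ≤ ∑ j ∈ range (n + 1), (1 : ℝ) := sum_le_sum fun j _ => h.le_one j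
    _ = (n : ℝ) + 1 := by simp

/-- `(n+1) u n ≤ U n` -/
lemma u_le (n : ℕ) : ((n : ℝ) + 1) * u n ≤ US u n := by
  unfold US
  calc ((n : ℝ) + 1) * u n = ∑ j ∈ range (n + 1), u n := by simp
    _ ≤ ∑ j ∈ range (n + 1), u j := sum_le_sum fun j hj => h.anti (by
        have := mem_range.1 hj; omega)

lemma u_le_div (n : ℕ) : u n ≤ US u n / ((n : ℝ) + 1) := by
  rw [le_div_iff₀ (by positivity)]
  have := h.u_le n
  linarith

lemma US_double (n m : ℕ) (hm : m ≤ 2 * n + 1) : US u m ≤ 2 * US u n := by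
  have h1 : US u m ≤ US u (2 * n + 1) := h.US_mono hm
  have h2 : US u (2 * n + 1) ≤ 2 * US u n := by
    unfold US
    have e1 : 2 * n + 1 + 1 = (n + 1) + (n + 1) := by ring
    rw [e1, sum_range_add, two_mul]
    refine add_le_add le_rfl (sum_le_sum fun j _ => h.anti (by omega))
  exact h1.trans h2

/-- growth of `U`: `U m ((n+1)/(m+1))^s ≤ U n` for `s ≤ e/2` -/
lemma growth (s : ℝ) (hs0 : 0 ≤ s) (hs : s ≤ e / 2) (m n : ℕ) (hmn : m ≤ n) :
    US u m * (((n : ℝ) + 1) / ((m : ℝ) + 1)) ^ s ≤ US u n := by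
  have he1 := h.e1
  induction n, hmn using Nat.le_induction with
  | base =>
    rw [div_self (by positivity), Real.one_rpow, mul_one]
  | succ n hn ih =>
    have hn1 : (0 : ℝ) < (n : ℝ) + 1 := by positivity
    have hn2 : (0 : ℝ) < (n : ℝ) + 2 := by positivity
    have hm1 : (0 : ℝ) < (m : ℝ) + 1 := by positivity
    have h1 : ((((n + 1 : ℕ) : ℝ) + 1) / ((m : ℝ) + 1)) ^ s
        = (((n : ℝ) + 1) / ((m : ℝ) + 1)) ^ s * (((n : ℝ) + 2) / ((n : ℝ) + 1)) ^ s := by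
      rw [← Real.mul_rpow (by positivity) (by positivity)]
      congr 1
      push_cast
      field_simp
      ring
    have h2 : (((n : ℝ) + 2) / ((n : ℝ) + 1)) ^ s ≤ 1 + s * (1 / ((n : ℝ) + 1)) := by
      have e1 : ((n : ℝ) + 2) / ((n : ℝ) + 1) = 1 + 1 / ((n : ℝ) + 1) := by field_simp; ring
      rw [e1]
      apply rpow_one_add_le_one_add_mul_self _ hs0 (by linarith)
      have : (0 : ℝ) ≤ 1 / ((n : ℝ) + 1) := by positivity
      linarith
    have h3 : 1 + s * (1 / ((n : ℝ) + 1)) ≤ 1 + e / ((n : ℝ) + 2) := by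
      have h4 : s * (1 / ((n : ℝ) + 1)) ≤ (e / 2) * (1 / ((n : ℝ) + 1)) :=
        mul_le_mul_of_nonneg_right hs (by positivity)
      have h5 : (e / 2) * (1 / ((n : ℝ) + 1)) ≤ e / ((n : ℝ) + 2) := by
        rw [div_mul_div_comm, mul_one, div_le_div_iff₀ (by positivity) hn2]
        have := h.e0
        have hn0 : (0 : ℝ) ≤ (n : ℝ) := Nat.cast_nonneg n
        nlinarith
      linarith
    have h4 : US u n * (1 + e / ((n : ℝ) + 2)) ≤ US u (n + 1) := by
      have h5 := h.low (n + 1)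
      push_cast at h5
      have h6 : e * US u (n + 1) / ((n : ℝ) + 2) ≤ u (n + 1) := by
        rw [div_le_iff₀ hn2]
        have e2 : (n : ℝ) + 1 + 1 = (n : ℝ) + 2 := by ring
        rw [e2] at h5
        linarith
      have h7 : US u n ≤ US u (n + 1) := h.US_mono (Nat.le_succ n)
      have h8 : e * US u n / ((n : ℝ) + 2) ≤ e * US u (n + 1) / ((n : ℝ) + 2) := by
        apply div_le_div_of_nonneg_right _ hn2.le
        exact mul_le_mul_of_nonneg_left h7 h.e0.le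
      have h9 : US u n * (1 + e / ((n : ℝ) + 2)) = US u n + e * US u n / ((n : ℝ) + 2) := by ring
      rw [h9, h.US_succ]
      linarith
    rw [h1]
    have hU := h.US_pos n
    calc US u m * ((((n : ℝ) + 1) / ((m : ℝ) + 1)) ^ s * (((n : ℝ) + 2) / ((n : ℝ) + 1)) ^ s)
        = (US u m * (((n : ℝ) + 1) / ((m : ℝ) + 1)) ^ s) * (((n : ℝ) + 2) / ((n : ℝ) + 1)) ^ s := by
          ring
      _ ≤ US u n * (1 + e / ((n : ℝ) + 2)) := by
          apply mul_le_mul ih (h2.trans h3) (by positivity) hU.le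
      _ ≤ US u (n + 1) := h4

lemma growth' (s : ℝ) (hs0 : 0 ≤ s) (hs : s ≤ e / 2) (m n : ℕ) (hmn : m ≤ n) :
    US u m ≤ US u n * (((m : ℝ) + 1) / ((n : ℝ) + 1)) ^ s := by
  have h1 := h.growth s hs0 hs m n hmn
  have hp : (0 : ℝ) < (((n : ℝ) + 1) / ((m : ℝ) + 1)) ^ s := by positivity
  have h2 : (((m : ℝ) + 1) / ((n : ℝ) + 1)) ^ s = ((((n : ℝ) + 1) / ((m : ℝ) + 1)) ^ s)⁻¹ := by
    rw [← Real.inv_rpow (by positivity), inv_div]
  rw [h2, ← div_eq_mul_inv, le_div_iff₀ hp]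
  exact h1

end Reg

/-- the decay factor of a fold with ends of heights `a` and `b` -/
def DD (δ : ℝ) (a b : ℕ) : ℝ := (((min a b : ℕ) : ℝ) + 1) ^ δ / (((max a b : ℕ) : ℝ) + 1) ^ δ

/-- the fold factor -/
def fold (u : ℕ → ℝ) (δ : ℝ) (b a : ℕ) : ℝ := DD δ b a / US u (min b a)

/-- the weight function of the ansatz -/
def VV (u : ℕ → ℝ) (δ : ℝ) (T b : ℕ) : ℝ :=
  1 + US u T / US u (min b T) * ((((min b T : ℕ) : ℝ) + 1) ^ δ / ((T : ℝ) + 1) ^ δ)

namespace Reg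

variable {u : ℕ → ℝ} {e : ℝ} (h : Reg u e)
include h

lemma one_le_VV (δ : ℝ) (T b : ℕ) : 1 ≤ VV u δ T b := by
  unfold VV
  have h1 := h.US_pos T
  have h2 := h.US_pos (min b T)
  have : 0 ≤ US u T / US u (min b T) * ((((min b T : ℕ) : ℝ) + 1) ^ δ / ((T : ℝ) + 1) ^ δ) := by
    positivity
  linarith

lemma fold_nonneg (δ : ℝ) (b a : ℕ) : 0 ≤ fold u δ b a := by
  unfold fold DD
  have := h.US_pos (min b a)
  positivity

/-- **Fold sum.** `∑_{a ≤ T} u a φ(b,a) ≤ C V_T(b)`. -/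
theorem fold_sum (δ : ℝ) (hδ0 : 0 < δ) (hδ : δ ≤ e / 4) (T b : ℕ) :
    ∑ a ∈ range (T + 1), u a * fold u δ b a ≤ (1 / δ) * (1 / (e / 2 - δ)) * VV u δ T b := by
  have he1 := h.e1
  have he0 := h.e0
  have hδ1 : δ ≤ 1 := by linarith
  have hed : 0 < e / 2 - δ := by linarith
  have hed1 : e / 2 - δ ≤ 1 := by linarith
  set b' : ℕ := min b T with hb'
  -- the part a ≤ b
  have hlow : ∑ a ∈ range (b' + 1), u a * fold u δ b a ≤ 1 / δ := by
    have h1 : ∀ a ∈ range (b' + 1), u a * fold u δ b a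
        ≤ ((a : ℝ) + 1) ^ (δ - 1) * (1 / ((b : ℝ) + 1) ^ δ) := by
      intro a ha
      have ha' : a ≤ b := by
        have := mem_range.1 ha
        have : b' ≤ b := min_le_left _ _
        omega
      unfold fold DD
      rw [min_eq_right ha', max_eq_left ha']
      have hU := h.US_pos a
      have h2 := h.u_le_div a
      have ha1 : (0 : ℝ) < (a : ℝ) + 1 := by positivity
      calc u a * ((((a : ℕ) : ℝ) + 1) ^ δ / (((b : ℕ) : ℝ) + 1) ^ δ / US u a)
          ≤ (US u a / ((a : ℝ) + 1)) * ((((a : ℕ) : ℝ) + 1) ^ δ / (((b : ℕ) : ℝ) + 1) ^ δ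
            / US u a) := mul_le_mul_of_nonneg_right h2 (by positivity)
        _ = ((a : ℝ) + 1) ^ (δ - 1) * (1 / ((b : ℝ) + 1) ^ δ) := by
            rw [Real.rpow_sub ha1, Real.rpow_one]
            field_simp
    calc ∑ a ∈ range (b' + 1), u a * fold u δ b a
        ≤ ∑ a ∈ range (b' + 1), ((a : ℝ) + 1) ^ (δ - 1) * (1 / ((b : ℝ) + 1) ^ δ) :=
          sum_le_sum h1
      _ = (∑ a ∈ range (b' + 1), ((a : ℝ) + 1) ^ (δ - 1)) * (1 / ((b : ℝ) + 1) ^ δ) := by
          rw [sum_mul]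
      _ ≤ ((((b' + 1 : ℕ) : ℝ)) ^ δ / δ) * (1 / ((b : ℝ) + 1) ^ δ) :=
          mul_le_mul_of_nonneg_right (sum_rpow_le δ hδ0 hδ1 (b' + 1)) (by positivity)
      _ ≤ (((b : ℝ) + 1) ^ δ / δ) * (1 / ((b : ℝ) + 1) ^ δ) := by
          apply mul_le_mul_of_nonneg_right _ (by positivity)
          apply div_le_div_of_nonneg_right _ hδ0.le
          apply Real.rpow_le_rpow (by positivity) _ hδ0.le
          have : (b' : ℝ) ≤ (b : ℝ) := by exact_mod_cast min_le_left b T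
          push_cast
          linarith
      _ = 1 / δ := by
          have : (0 : ℝ) < ((b : ℝ) + 1) ^ δ := by positivity
          field_simp
  -- the part b < a ≤ T
  have hhigh : ∑ a ∈ Ico (b' + 1) (T + 1), u a * fold u δ b a
      ≤ (1 / (e / 2 - δ)) * (US u T / US u b' * (((b' : ℝ) + 1) ^ δ / ((T : ℝ) + 1) ^ δ)) := by
    rcases le_or_gt T b with hTb | hTb
    · have : b' = T := min_eq_right hTb
      rw [this, Ico_self, sum_empty]
      have hU := h.US_pos T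
      positivity
    · have hb'b : b' = b := min_eq_left hTb.le
      rw [hb'b]
      have hUb := h.US_pos b
      have hUT := h.US_pos T
      have h1 : ∀ a ∈ Ico (b + 1) (T + 1), u a * fold u δ b a
          ≤ ((a : ℝ) + 1) ^ (e / 2 - δ - 1)
            * (US u T / US u b * (((b : ℝ) + 1) ^ δ / ((T : ℝ) + 1) ^ (e / 2))) := by
        intro a ha
        have ha1 := (mem_Ico.1 ha).1
        have ha2 := (mem_Ico.1 ha).2
        have hab : b ≤ a := by omega
        have haT : a ≤ T := by omega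
        unfold fold DD
        rw [min_eq_left hab, max_eq_right hab]
        have hap : (0 : ℝ) < (a : ℝ) + 1 := by positivity
        have h2 := h.u_le_div a
        have h3 := h.growth' (e / 2) (by linarith) le_rfl a T haT
        rw [Real.div_rpow (by positivity) (by positivity)] at h3
        have h4 : u a ≤ US u T * (((a : ℝ) + 1) ^ (e / 2) / ((T : ℝ) + 1) ^ (e / 2))
            / ((a : ℝ) + 1) := h2.trans (div_le_div_of_nonneg_right h3 hap.le)
        calc u a * ((((b : ℕ) : ℝ) + 1) ^ δ / (((a : ℕ) : ℝ) + 1) ^ δ / US u b)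
            ≤ (US u T * (((a : ℝ) + 1) ^ (e / 2) / ((T : ℝ) + 1) ^ (e / 2)) / ((a : ℝ) + 1))
              * ((((b : ℕ) : ℝ) + 1) ^ δ / (((a : ℕ) : ℝ) + 1) ^ δ / US u b) :=
                mul_le_mul_of_nonneg_right h4 (by positivity)
          _ = _ := by
              rw [Real.rpow_sub hap, Real.rpow_sub hap, Real.rpow_one]
              field_simp
      calc ∑ a ∈ Ico (b + 1) (T + 1), u a * fold u δ b a
          ≤ ∑ a ∈ Ico (b + 1) (T + 1), ((a : ℝ) + 1) ^ (e / 2 - δ - 1)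
            * (US u T / US u b * (((b : ℝ) + 1) ^ δ / ((T : ℝ) + 1) ^ (e / 2))) := sum_le_sum h1
        _ = (∑ a ∈ Ico (b + 1) (T + 1), ((a : ℝ) + 1) ^ (e / 2 - δ - 1))
            * (US u T / US u b * (((b : ℝ) + 1) ^ δ / ((T : ℝ) + 1) ^ (e / 2))) := by rw [sum_mul]
        _ ≤ (∑ a ∈ range (T + 1), ((a : ℝ) + 1) ^ (e / 2 - δ - 1))
            * (US u T / US u b * (((b : ℝ) + 1) ^ δ / ((T : ℝ) + 1) ^ (e / 2))) := by
            apply mul_le_mul_of_nonneg_right _ (by positivity)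
            refine sum_le_sum_of_subset_of_nonneg ?_ fun i _ _ => by positivity
            intro i hi
            have := (mem_Ico.1 hi).2
            exact mem_range.2 this
        _ ≤ ((((T + 1 : ℕ) : ℝ)) ^ (e / 2 - δ) / (e / 2 - δ))
            * (US u T / US u b * (((b : ℝ) + 1) ^ δ / ((T : ℝ) + 1) ^ (e / 2))) := by
            apply mul_le_mul_of_nonneg_right _ (by positivity)
            exact sum_rpow_le (e / 2 - δ) hed hed1 (T + 1)
        _ = (1 / (e / 2 - δ)) * (US u T / US u b * (((b : ℝ) + 1) ^ δ / ((T : ℝ) + 1) ^ δ)) := by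
            have hT1 : (0 : ℝ) < (T : ℝ) + 1 := by positivity
            push_cast
            rw [Real.rpow_sub hT1]
            field_simp
  -- together
  have hsplit : ∑ a ∈ range (T + 1), u a * fold u δ b a
      = ∑ a ∈ range (b' + 1), u a * fold u δ b a
        + ∑ a ∈ Ico (b' + 1) (T + 1), u a * fold u δ b a := by
    rw [range_eq_Ico, range_eq_Ico]
    exact (sum_Ico_consecutive _ (Nat.zero_le _) (by
      have : b' ≤ T := min_le_right _ _
      omega)).symm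
  rw [hsplit]
  have hd1 : 1 ≤ 1 / δ := by rw [le_div_iff₀ hδ0]; linarith
  have hd2 : 1 ≤ 1 / (e / 2 - δ) := by rw [le_div_iff₀ hed]; linarith
  have hW : 0 ≤ US u T / US u b' * (((b' : ℝ) + 1) ^ δ / ((T : ℝ) + 1) ^ δ) := by
    have h1 := h.US_pos T
    have h2 := h.US_pos b'
    positivity
  have hVV : VV u δ T b = 1 + US u T / US u b' * (((b' : ℝ) + 1) ^ δ / ((T : ℝ) + 1) ^ δ) := rfl
  rw [hVV]
  have hpos1 : (0 : ℝ) ≤ 1 / δ := by positivity
  have hpos2 : (0 : ℝ) ≤ 1 / (e / 2 - δ) := by positivity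
  have k1 : 1 / δ ≤ (1 / δ) * (1 / (e / 2 - δ)) := le_mul_of_one_le_right hpos1 hd2
  have k2 : (1 / (e / 2 - δ)) * (US u T / US u b' * (((b' : ℝ) + 1) ^ δ / ((T : ℝ) + 1) ^ δ))
      ≤ (1 / δ) * (1 / (e / 2 - δ)) * (US u T / US u b' * (((b' : ℝ) + 1) ^ δ / ((T : ℝ) + 1) ^ δ)) := by
    apply mul_le_mul_of_nonneg_right _ hW
    exact le_mul_of_one_le_left hpos2 hd1
  rw [mul_add, mul_one]
  linarith

/-- **Window sum.** `∑_{b in a window of length L inside [0,T]} u b V_T(b) ≤ C U_T (L/(T+1))^δ`. -/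
theorem window_sum (δ : ℝ) (hδ0 : 0 < δ) (hδ : δ ≤ e / 4) (T a L : ℕ) (hL : 1 ≤ L)
    (hW : a + L ≤ T + 1) :
    ∑ b ∈ Ico a (a + L), u b * VV u δ T b
      ≤ (1 + 1 / δ) * (US u T * ((L : ℝ) / ((T : ℝ) + 1)) ^ δ) := by
  have he1 := h.e1
  have he0 := h.e0
  have hδ1 : δ ≤ 1 := by linarith
  have hUT := h.US_pos T
  have hT1 : (0 : ℝ) < (T : ℝ) + 1 := by positivity
  have h1 : ∀ b ∈ Ico a (a + L), u b * VV u δ T b
      ≤ u b + ((b : ℝ) + 1) ^ (δ - 1) * (US u T / ((T : ℝ) + 1) ^ δ) := by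
    intro b hb
    have hbT : b ≤ T := by have := (mem_Ico.1 hb).2; omega
    unfold VV
    rw [min_eq_left hbT, mul_add, mul_one]
    refine add_le_add le_rfl ?_
    have hUb := h.US_pos b
    have hb1 : (0 : ℝ) < (b : ℝ) + 1 := by positivity
    have h2 := h.u_le_div b
    calc u b * (US u T / US u b * ((((b : ℕ) : ℝ) + 1) ^ δ / ((T : ℝ) + 1) ^ δ))
        ≤ (US u b / ((b : ℝ) + 1)) * (US u T / US u b * ((((b : ℕ) : ℝ) + 1) ^ δ
          / ((T : ℝ) + 1) ^ δ)) := mul_le_mul_of_nonneg_right h2 (by positivity)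
      _ = ((b : ℝ) + 1) ^ (δ - 1) * (US u T / ((T : ℝ) + 1) ^ δ) := by
          rw [Real.rpow_sub hb1, Real.rpow_one]
          field_simp
  have h2 : ∑ b ∈ Ico a (a + L), u b ≤ US u T * ((L : ℝ) / ((T : ℝ) + 1)) ^ δ := by
    have h3 := window_anti u h.anti a L
    have h4 : ∑ b ∈ range L, u b = US u (L - 1) := by
      unfold US
      congr 2
      omega
    rw [h4] at h3
    have h5 := h.growth' δ hδ0.le (by linarith) (L - 1) T (by omega)
    have h6 : (((L - 1 : ℕ) : ℝ) + 1) = (L : ℝ) := by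
      have : L - 1 + 1 = L := by omega
      exact_mod_cast this
    rw [h6] at h5
    exact h3.trans h5
  have h3 : ∑ b ∈ Ico a (a + L), ((b : ℝ) + 1) ^ (δ - 1) * (US u T / ((T : ℝ) + 1) ^ δ)
      ≤ (1 / δ) * (US u T * ((L : ℝ) / ((T : ℝ) + 1)) ^ δ) := by
    rw [← sum_mul]
    calc (∑ b ∈ Ico a (a + L), ((b : ℝ) + 1) ^ (δ - 1)) * (US u T / ((T : ℝ) + 1) ^ δ)
        ≤ ((L : ℝ) ^ δ / δ) * (US u T / ((T : ℝ) + 1) ^ δ) :=
          mul_le_mul_of_nonneg_right (window_rpow δ hδ0 hδ1 a L) (by positivity)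
      _ = _ := by
          rw [Real.div_rpow (by positivity) hT1.le]
          field_simp
  calc ∑ b ∈ Ico a (a + L), u b * VV u δ T b
      ≤ ∑ b ∈ Ico a (a + L), (u b + ((b : ℝ) + 1) ^ (δ - 1) * (US u T / ((T : ℝ) + 1) ^ δ)) :=
        sum_le_sum h1
    _ = ∑ b ∈ Ico a (a + L), u b
        + ∑ b ∈ Ico a (a + L), ((b : ℝ) + 1) ^ (δ - 1) * (US u T / ((T : ℝ) + 1) ^ δ) :=
        sum_add_distrib
    _ ≤ US u T * ((L : ℝ) / ((T : ℝ) + 1)) ^ δ
        + (1 / δ) * (US u T * ((L : ℝ) / ((T : ℝ) + 1)) ^ δ) := add_le_add h2 h3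
    _ = _ := by ring

/-- monotonicity of the weight in `T` -/
lemma VV_mono (δ : ℝ) (hδ0 : 0 ≤ δ) (hδ : δ ≤ e / 2) (T b : ℕ) :
    VV u δ T b ≤ VV u δ (T + 1) b := by
  unfold VV
  refine add_le_add le_rfl ?_
  rcases le_or_gt b T with hb | hb
  · rw [min_eq_left hb, min_eq_left (by omega : b ≤ T + 1)]
    have hUb := h.US_pos b
    have h1 := h.growth' δ hδ0 hδ T (T + 1) (Nat.le_succ T)
    rw [Real.div_rpow (by positivity) (by positivity)] at h1
    have hT1 : (0 : ℝ) < ((T : ℝ) + 1) ^ δ := by positivity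
    have hT2 : (0 : ℝ) < (((T + 1 : ℕ) : ℝ) + 1) ^ δ := by positivity
    have hb1 : (0 : ℝ) < ((b : ℝ) + 1) ^ δ := by positivity
    have h2 : US u T / ((T : ℝ) + 1) ^ δ ≤ US u (T + 1) / (((T + 1 : ℕ) : ℝ) + 1) ^ δ := by
      rw [div_le_div_iff₀ hT1 hT2]
      rw [mul_div_assoc'] at h1
      rw [le_div_iff₀ hT2] at h1
      exact h1
    calc US u T / US u b * (((b : ℝ) + 1) ^ δ / ((T : ℝ) + 1) ^ δ)
        = (US u T / ((T : ℝ) + 1) ^ δ) * (((b : ℝ) + 1) ^ δ / US u b) := by ring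
      _ ≤ (US u (T + 1) / (((T + 1 : ℕ) : ℝ) + 1) ^ δ) * (((b : ℝ) + 1) ^ δ / US u b) :=
          mul_le_mul_of_nonneg_right h2 (by positivity)
      _ = _ := by ring
  · rw [min_eq_right (by omega : T ≤ b), min_eq_right (by omega : T + 1 ≤ b)]
    have h1 := h.US_pos T
    have h2 := h.US_pos (T + 1)
    have hT1 : (0 : ℝ) < ((T : ℝ) + 1) ^ δ := by positivity
    have hT2 : (0 : ℝ) < (((T + 1 : ℕ) : ℝ) + 1) ^ δ := by positivity
    rw [div_self h1.ne', div_self h2.ne', div_self hT1.ne', div_self hT2.ne']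

end Reg

end

end PHWnum
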